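import Mathlib

/-!
# A mirrored pair of optimal entanglement witnesses that is not related by local unitaries
-/

namespace Pool.Agent.Results.MP_472e54_mp.MirroredPair

open Matrix Complex
open scoped ComplexOrder

variable {n : ℕ} {d : Fin n → ℕ}

/-- The product basis of the multipartite Hilbert space with local dimensions `d i`. -/
abbrev Idx {n : ℕ} (d : Fin n → ℕ) : Type := (i : Fin n) → Fin (d i)

/-- The tensor product of local operators. -/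
def prodOp (A : (i : Fin n) → Matrix (Fin (d i)) (Fin (d i)) ℂ) : Matrix (Idx d) (Idx d) ℂ :=
  Matrix.of fun a b => ∏ i, A i (a i) (b i)

/-- A state: a positive semidefinite matrix of trace one. -/
def IsState {ι : Type} [Fintype ι] (ρ : Matrix ι ι ℂ) : Prop := ρ.PosSemidef ∧ ρ.trace = 1

/-- The set of separable states: the convex hull of the product states. -/
def Sep {n : ℕ} (d : Fin n → ℕ) : Set (Matrix (Idx d) (Idx d) ℂ) :=
  convexHull ℝ {σ | ∃ ρ : (i : Fin n) → Matrix (Fin (d i)) (Fin (d i)) ℂ,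
    (∀ i, IsState (ρ i)) ∧ σ = prodOp ρ}

/-- Entanglement witnesses. -/
def IsEW (W : Matrix (Idx d) (Idx d) ℂ) : Prop :=
  W.IsHermitian ∧ (∀ σ ∈ Sep d, 0 ≤ (W * σ).trace.re) ∧
    ∃ ρ : Matrix (Idx d) (Idx d) ℂ, IsState ρ ∧ (W * ρ).trace.re < 0

/-- Optimal entanglement witnesses. -/
def IsOptimalEW (W : Matrix (Idx d) (Idx d) ℂ) : Prop :=
  IsEW W ∧ ¬ ∃ (ε : ℝ) (P : Matrix (Idx d) (Idx d) ℂ), 0 < ε ∧ P ≠ 0 ∧ P.PosSemidef ∧
    IsEW (W - (ε : ℂ) • P)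

/-- `W` and `M` are related by local unitaries. -/
def LocallyUnitarilyRelated (W M : Matrix (Idx d) (Idx d) ℂ) : Prop :=
  ∃ U : (i : Fin n) → Matrix (Fin (d i)) (Fin (d i)) ℂ,
    (∀ i, U i ∈ Matrix.unitaryGroup (Fin (d i)) ℂ) ∧ M = prodOp U * W * (prodOp U)ᴴ

theorem prodOp_mul (A B : (i : Fin n) → Matrix (Fin (d i)) (Fin (d i)) ℂ) :
    prodOp A * prodOp B = prodOp (fun i => A i * B i) := by
  ext a b
  simp only [prodOp, Matrix.mul_apply, Matrix.of_apply]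
  rw [Finset.prod_univ_sum]
  rw [Fintype.piFinset_univ]
  refine Finset.sum_congr rfl fun c _ => ?_
  rw [Finset.prod_mul_distrib]

theorem trace_prodOp (A : (i : Fin n) → Matrix (Fin (d i)) (Fin (d i)) ℂ) :
    (prodOp A).trace = ∏ i, (A i).trace := by
  simp only [prodOp, Matrix.trace, Matrix.diag_apply, Matrix.of_apply]
  rw [Finset.prod_univ_sum, Fintype.piFinset_univ]

theorem prodOp_conjTranspose (A : (i : Fin n) → Matrix (Fin (d i)) (Fin (d i)) ℂ) :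
    (prodOp A)ᴴ = prodOp (fun i => (A i)ᴴ) := by
  ext a b
  simp [prodOp, Matrix.conjTranspose_apply]

theorem prodOp_one : prodOp (fun i => (1 : Matrix (Fin (d i)) (Fin (d i)) ℂ)) = 1 := by
  ext a b
  simp only [prodOp, Matrix.of_apply, Matrix.one_apply]
  by_cases h : a = b
  · subst h; simp
  · rw [if_neg h]
    obtain ⟨i, hi⟩ := Function.ne_iff.1 h
    exact Finset.prod_eq_zero (Finset.mem_univ i) (if_neg hi)

/-- The Pauli matrices. -/
def X : Matrix (Fin 2) (Fin 2) ℂ := !![0, 1; 1, 0]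
def Y : Matrix (Fin 2) (Fin 2) ℂ := !![0, -I; I, 0]
def Z : Matrix (Fin 2) (Fin 2) ℂ := !![1, 0; 0, -1]

/-- Three qubits. -/
abbrev d3 : Fin 3 → ℕ := fun _ => 2

/-- The product of three one-qubit operators. -/
def T (A B C : Matrix (Fin 2) (Fin 2) ℂ) : Matrix (Idx d3) (Idx d3) ℂ :=
  prodOp (d := d3) ![A, B, C]

/-- The scalar triple product of the three spins. -/
def O : Matrix (Idx d3) (Idx d3) ℂ :=
  T X Y Z + T Y Z X + T Z X Y - T X Z Y - T Z Y X - T Y X Z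

theorem T_mul (A B C A' B' C' : Matrix (Fin 2) (Fin 2) ℂ) :
    T A B C * T A' B' C' = T (A * A') (B * B') (C * C') := by
  unfold T
  rw [prodOp_mul]
  congr 1
  funext i
  fin_cases i <;> rfl

theorem T_trace (A B C : Matrix (Fin 2) (Fin 2) ℂ) :
    (T A B C).trace = A.trace * B.trace * C.trace := by
  unfold T
  rw [trace_prodOp, Fin.prod_univ_three]
  rfl

theorem T_conjTranspose (A B C : Matrix (Fin 2) (Fin 2) ℂ) :
    (T A B C)ᴴ = T Aᴴ Bᴴ Cᴴ := by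
  unfold T
  rw [prodOp_conjTranspose]
  congr 1
  funext i
  fin_cases i <;> rfl

theorem T_one : T 1 1 1 = 1 := by
  unfold T
  rw [← prodOp_one]
  congr 1
  funext i
  fin_cases i <;> rfl

theorem X_H : Xᴴ = X := by
  ext i j; fin_cases i <;> fin_cases j <;> simp [X, Matrix.conjTranspose_apply]

theorem Y_H : Yᴴ = Y := by
  ext i j; fin_cases i <;> fin_cases j <;> simp [Y, Matrix.conjTranspose_apply]

theorem Z_H : Zᴴ = Z := by
  ext i j; fin_cases i <;> fin_cases j <;> simp [Z, Matrix.conjTranspose_apply]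

theorem O_H : Oᴴ = O := by
  unfold O
  simp only [Matrix.conjTranspose_add, Matrix.conjTranspose_sub, T_conjTranspose, X_H, Y_H, Z_H]

theorem trace_T_O (A B C : Matrix (Fin 2) (Fin 2) ℂ) :
    (T A B C * O).trace =
      (A * X).trace * (B * Y).trace * (C * Z).trace +
      (A * Y).trace * (B * Z).trace * (C * X).trace +
      (A * Z).trace * (B * X).trace * (C * Y).trace -
      (A * X).trace * (B * Z).trace * (C * Y).trace -
      (A * Z).trace * (B * Y).trace * (C * X).trace -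
      (A * Y).trace * (B * X).trace * (C * Z).trace := by
  unfold O
  simp only [mul_add, mul_sub, T_mul, Matrix.trace_add, Matrix.trace_sub, T_trace]

/-- The trilinear form of the operator. -/
theorem trace_T_O' (A B C : Matrix (Fin 2) (Fin 2) ℂ) :
    (T A B C * O).trace = -2 * I * ((A * B - B * A) * C).trace := by
  rw [trace_T_O]
  simp only [X, Y, Z, Matrix.trace_fin_two, Matrix.mul_apply, Fin.sum_univ_two, Matrix.sub_apply,
    Matrix.of_apply, Matrix.cons_val', Matrix.cons_val_zero, Matrix.cons_val_one,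
    Matrix.cons_val_fin_one]
  ring

/-! ### The two witnesses are not related by local unitaries -/

theorem comm_of_lu {U₁ U₂ U₃ : Matrix (Fin 2) (Fin 2) ℂ}
    (h₁ : U₁ * U₁ᴴ = 1) (h₂ : U₂ * U₂ᴴ = 1) (h₃ : U₃ * U₃ᴴ = 1)
    (h₁' : U₁ᴴ * U₁ = 1) (h₂' : U₂ᴴ * U₂ = 1) (h₃' : U₃ᴴ * U₃ = 1)
    (h : T U₁ U₂ U₃ * O * (T U₁ U₂ U₃)ᴴ = -O) (A B : Matrix (Fin 2) (Fin 2) ℂ) :
    U₃ * (A * B - B * A) * U₃ᴴ = -(U₁ * A * U₁ᴴ * (U₂ * B * U₂ᴴ) - U₂ * B * U₂ᴴ * (U₁ * A * U₁ᴴ)) := by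
  -- the trace identity
  have key : ∀ C : Matrix (Fin 2) (Fin 2) ℂ,
      ((A * B - B * A) * C).trace =
        -((U₁ * A * U₁ᴴ * (U₂ * B * U₂ᴴ) - U₂ * B * U₂ᴴ * (U₁ * A * U₁ᴴ)) *
          (U₃ * C * U₃ᴴ)).trace := by
    intro C
    have e1 : (T (U₁ * A * U₁ᴴ) (U₂ * B * U₂ᴴ) (U₃ * C * U₃ᴴ) * O).trace =
        -(T A B C * O).trace := by
      have e2 : T (U₁ * A * U₁ᴴ) (U₂ * B * U₂ᴴ) (U₃ * C * U₃ᴴ) =
          T U₁ U₂ U₃ * T A B C * (T U₁ U₂ U₃)ᴴ := by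
        rw [T_conjTranspose, T_mul, T_mul]
      have e3 : T U₁ U₂ U₃ * (T U₁ U₂ U₃)ᴴ = 1 := by
        rw [T_conjTranspose, T_mul, h₁, h₂, h₃, T_one]
      have e3' : (T U₁ U₂ U₃)ᴴ * T U₁ U₂ U₃ = 1 := by
        rw [T_conjTranspose, T_mul, h₁', h₂', h₃', T_one]
      have e4 : O = -(T U₁ U₂ U₃ * O * (T U₁ U₂ U₃)ᴴ) := by rw [h, neg_neg]
      have e5 : (T U₁ U₂ U₃ * T A B C * (T U₁ U₂ U₃)ᴴ * O).trace =
          -(T U₁ U₂ U₃ * T A B C * O * (T U₁ U₂ U₃)ᴴ).trace := by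
        conv_lhs => rw [e4]
        rw [mul_neg, Matrix.trace_neg]
        congr 2
        calc T U₁ U₂ U₃ * T A B C * (T U₁ U₂ U₃)ᴴ * (T U₁ U₂ U₃ * O * (T U₁ U₂ U₃)ᴴ)
            = T U₁ U₂ U₃ * T A B C * ((T U₁ U₂ U₃)ᴴ * T U₁ U₂ U₃) * O * (T U₁ U₂ U₃)ᴴ := by
              simp only [mul_assoc]
          _ = _ := by rw [e3', mul_one]
      rw [e2, e5, Matrix.trace_mul_comm]
      congr 1
      rw [← mul_assoc, ← mul_assoc, e3', one_mul]
    rw [trace_T_O', trace_T_O'] at e1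
    have hI : (-2 * I : ℂ) ≠ 0 := by simp
    have e6 : (-2 * I : ℂ) * ((U₁ * A * U₁ᴴ * (U₂ * B * U₂ᴴ) - U₂ * B * U₂ᴴ * (U₁ * A * U₁ᴴ)) *
        (U₃ * C * U₃ᴴ)).trace = (-2 * I) * (-((A * B - B * A) * C).trace) := by
      rw [e1]; ring
    have := mul_left_cancel₀ hI e6
    rw [this, neg_neg]
  -- nondegeneracy of the trace form
  have key2 : ∀ C : Matrix (Fin 2) (Fin 2) ℂ,
      ((U₃ * (A * B - B * A) * U₃ᴴ) * C).trace =
        (-(U₁ * A * U₁ᴴ * (U₂ * B * U₂ᴴ) - U₂ * B * U₂ᴴ * (U₁ * A * U₁ᴴ)) * C).trace := by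
    intro C
    have e1 := key (U₃ᴴ * C * U₃)
    have e2 : U₃ * (U₃ᴴ * C * U₃) * U₃ᴴ = C := by
      calc U₃ * (U₃ᴴ * C * U₃) * U₃ᴴ = (U₃ * U₃ᴴ) * C * (U₃ * U₃ᴴ) := by simp only [mul_assoc]
        _ = C := by rw [h₃, one_mul, mul_one]
    rw [e2] at e1
    rw [neg_mul, Matrix.trace_neg, ← e1]
    rw [mul_assoc U₃, mul_assoc U₃, Matrix.trace_mul_comm U₃]
    congr 1
    simp only [mul_assoc]
  exact Matrix.ext_iff_trace_mul_right.2 key2

theorem ext2 {A B : Matrix (Fin 2) (Fin 2) ℂ} (h : A = B) :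
    A 0 0 = B 0 0 ∧ A 0 1 = B 0 1 ∧ A 1 0 = B 1 0 ∧ A 1 1 = B 1 1 := by
  subst h; exact ⟨rfl, rfl, rfl, rfl⟩

theorem scalar_aux {a b c d a' b' c' d' : ℂ} (ha : a = 0 → a' = 0) (hc : c' = 0 → c = 0)
    (hb : b = 0 → b' = 0)
    (u1 : a * a' + b * b' = 1) (u2 : a * c' + b * d' = 0) (u3 : c * a' + d * b' = 0)
    (u4 : c * c' + d * d' = 1) (hd : d = 0 → d' = 0)
    (a2 : a * c' = 0)
    (b2 : (a + b) * a' + (a + b * -1) * b' + ((a + b) * c' + (a + b * -1) * d') * -1 =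
      (a + b) * c' + (a + b * -1) * d' + ((c + d) * c' + (c + d * -1) * d'))
    (c1 : (b * (1 + I) * c' + a * (1 - I) * d') * (1 + I) =
      (1 - I) * (d * (1 + I) * a' + c * (1 - I) * b')) :
    b = 0 ∧ c = 0 ∧ a = d ∧ a * a' = 1 := by
  rcases mul_eq_zero.1 a2 with h0 | h0
  · exfalso
    have h0' := ha h0
    subst h0 h0'
    have hbb : b * b' = 1 := by linear_combination u1
    have hd0 : d = 0 := by linear_combination (-d) * hbb + b * u3
    have hd0' := hd hd0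
    subst hd0 hd0'
    have hcc : c * c' = 1 := by linear_combination u4
    have h1 : b * c' = -1 := by linear_combination (-1 / 2) * b2 + (-1 / 2) * hbb + (-1 / 2) * hcc
    have h2 : c * b' = -1 := by
      linear_combination (c * b') * h1 - (c * c') * hbb - hcc
    have hI := I_sq
    have : (4 : ℂ) * I = 0 := by
      linear_combination -c1 + (1 + I) ^ 2 * h1 - (1 - I) ^ 2 * h2
    simp at this
  · have h0' := hc h0
    subst h0 h0'
    have hdd : d * d' = 1 := by linear_combination u4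
    have hb0 : b = 0 := by linear_combination (-b) * hdd + d * u2
    have hb0' := hb hb0
    subst hb0 hb0'
    have haa : a * a' = 1 := by linear_combination u1
    have h1 : a * d' = 1 := by linear_combination (-1 / 2) * b2 + (1 / 2) * haa + (1 / 2) * hdd
    refine ⟨rfl, rfl, ?_, haa⟩
    linear_combination (-a) * hdd + d * h1

/-- A unitary `Q` such that `Q A Q*` commutes with `A` for all `A` is a scalar. -/
theorem scalar_of_comm {Q : Matrix (Fin 2) (Fin 2) ℂ} (h : Q * Qᴴ = 1)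
    (hc : ∀ A : Matrix (Fin 2) (Fin 2) ℂ, Q * A * Qᴴ * A = A * (Q * A * Qᴴ)) :
    ∃ a : ℂ, a * star a = 1 ∧ Q = a • (1 : Matrix (Fin 2) (Fin 2) ℂ) := by
  obtain ⟨u1, u2, u3, u4⟩ := ext2 h
  obtain ⟨-, a2, -, -⟩ := ext2 (hc !![1, 0; 0, 0])
  obtain ⟨-, b2, -, -⟩ := ext2 (hc !![1, 1; 1, -1])
  obtain ⟨c1, -, -, -⟩ := ext2 (hc !![0, 1 - I; 1 + I, 0])
  simp only [Matrix.mul_apply, Fin.sum_univ_two, Matrix.conjTranspose_apply, Matrix.one_apply,
    Matrix.of_apply, Matrix.cons_val', Matrix.cons_val_zero, Matrix.cons_val_one,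
    Matrix.cons_val_fin_one, if_true, one_ne_zero, zero_ne_one, if_false, mul_zero, mul_one,
    zero_mul, one_mul, add_zero, zero_add] at u1 u2 u3 u4 a2 b2 c1
  obtain ⟨hb, hc', had, haa⟩ := scalar_aux (a := Q 0 0) (b := Q 0 1) (c := Q 1 0) (d := Q 1 1)
    (a' := star (Q 0 0)) (b' := star (Q 0 1)) (c' := star (Q 1 0)) (d' := star (Q 1 1))
    (fun h => by rw [h, star_zero]) (fun h => star_eq_zero.1 h) (fun h => by rw [h, star_zero])
    u1 u2 u3 u4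
    (fun h => by rw [h, star_zero]) a2.symm b2 c1
  refine ⟨Q 0 0, haa, ?_⟩
  ext i j
  fin_cases i <;> fin_cases j <;> simp [hb, hc', had]

/-- No matrix anticommutes with the three Pauli matrices, except zero. -/
theorem eq_zero_of_anticomm {V : Matrix (Fin 2) (Fin 2) ℂ} (h1 : V * X = -(X * V))
    (h2 : V * Y = -(Y * V)) (h3 : V * Z = -(Z * V)) : V = 0 := by
  obtain ⟨a1, a2, a3, a4⟩ := ext2 h1
  obtain ⟨b1, b2, b3, b4⟩ := ext2 h2
  obtain ⟨c1, c2, c3, c4⟩ := ext2 h3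
  simp only [X, Y, Z, Matrix.mul_apply, Fin.sum_univ_two, Matrix.neg_apply,
    Matrix.of_apply, Matrix.cons_val', Matrix.cons_val_zero, Matrix.cons_val_one,
    Matrix.cons_val_fin_one, mul_zero, mul_one, zero_mul, one_mul, add_zero, zero_add]
    at a1 a2 a3 a4 b1 b2 b3 b4 c1 c2 c3 c4
  have e00 : V 0 0 = 0 := by linear_combination (1 / 2) * c1
  have e11 : V 1 1 = 0 := by linear_combination (-1 / 2) * c4
  have e01 : V 0 1 = 0 := by
    have h5 : I * (V 0 1 - V 1 0) = 0 := by linear_combination b1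
    have h6 : V 0 1 - V 1 0 = 0 := by simpa using h5
    linear_combination (1 / 2) * h6 + (1 / 2) * a1
  have e10 : V 1 0 = 0 := by linear_combination a1 - e01
  ext i j
  fin_cases i <;> fin_cases j <;> simp [e00, e01, e10, e11]

theorem XY : X * Y - Y * X = (2 * I) • Z := by
  ext i j
  fin_cases i <;> fin_cases j <;> simp [X, Y, Z] <;> ring

theorem YZ : Y * Z - Z * Y = (2 * I) • X := by
  ext i j
  fin_cases i <;> fin_cases j <;> simp [X, Y, Z] <;> ring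

theorem ZX : Z * X - X * Z = (2 * I) • Y := by
  ext i j
  fin_cases i <;> fin_cases j <;> simp [X, Y, Z] <;> ring_nf <;> simp

theorem not_lu {U₁ U₂ U₃ : Matrix (Fin 2) (Fin 2) ℂ}
    (h₁ : U₁ * U₁ᴴ = 1) (h₂ : U₂ * U₂ᴴ = 1) (h₃ : U₃ * U₃ᴴ = 1)
    (h₁' : U₁ᴴ * U₁ = 1) (h₂' : U₂ᴴ * U₂ = 1) (h₃' : U₃ᴴ * U₃ = 1)
    (h : T U₁ U₂ U₃ * O * (T U₁ U₂ U₃)ᴴ = -O) : False := by
  have E := comm_of_lu h₁ h₂ h₃ h₁' h₂' h₃' h
  -- first step: `U₂* U₁` is a scalar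
  have hQ : (U₂ᴴ * U₁) * (U₂ᴴ * U₁)ᴴ = 1 := by
    rw [Matrix.conjTranspose_mul, Matrix.conjTranspose_conjTranspose]
    calc U₂ᴴ * U₁ * (U₁ᴴ * U₂) = U₂ᴴ * (U₁ * U₁ᴴ) * U₂ := by simp only [mul_assoc]
      _ = 1 := by rw [h₁, mul_one, h₂']
  have hc : ∀ A : Matrix (Fin 2) (Fin 2) ℂ, (U₂ᴴ * U₁) * A * (U₂ᴴ * U₁)ᴴ * A =
      A * ((U₂ᴴ * U₁) * A * (U₂ᴴ * U₁)ᴴ) := by
    intro A
    have e := E A A
    rw [sub_self, mul_zero, zero_mul, eq_comm, neg_eq_zero, sub_eq_zero] at e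
    rw [Matrix.conjTranspose_mul, Matrix.conjTranspose_conjTranspose]
    calc U₂ᴴ * U₁ * A * (U₁ᴴ * U₂) * A
        = U₂ᴴ * U₁ * A * (U₁ᴴ * U₂) * A * (U₂ᴴ * U₂) := by rw [h₂', mul_one]
      _ = U₂ᴴ * (U₁ * A * U₁ᴴ * (U₂ * A * U₂ᴴ)) * U₂ := by simp only [mul_assoc]
      _ = U₂ᴴ * (U₂ * A * U₂ᴴ * (U₁ * A * U₁ᴴ)) * U₂ := by rw [e]
      _ = (U₂ᴴ * U₂) * A * (U₂ᴴ * U₁ * A * (U₁ᴴ * U₂)) := by simp only [mul_assoc]
      _ = A * (U₂ᴴ * U₁ * A * (U₁ᴴ * U₂)) := by rw [h₂', one_mul]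
  obtain ⟨a, ha, hQa⟩ := scalar_of_comm hQ hc
  have hU : U₁ = a • U₂ := by
    calc U₁ = (U₂ * U₂ᴴ) * U₁ := by rw [h₂, one_mul]
      _ = U₂ * (U₂ᴴ * U₁) := by rw [mul_assoc]
      _ = a • U₂ := by rw [hQa, mul_smul_comm, mul_one]
  have hconj : ∀ A : Matrix (Fin 2) (Fin 2) ℂ, U₁ * A * U₁ᴴ = U₂ * A * U₂ᴴ := by
    intro A
    rw [hU, Matrix.conjTranspose_smul, smul_mul_assoc, smul_mul_assoc, mul_smul_comm, smul_smul,
      ha, one_smul]
  have E2 : ∀ A B : Matrix (Fin 2) (Fin 2) ℂ,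
      (U₂ᴴ * U₃) * (A * B - B * A) = -((A * B - B * A) * (U₂ᴴ * U₃)) := by
    intro A B
    have e := E A B
    rw [hconj] at e
    have e1 : U₂ * A * U₂ᴴ * (U₂ * B * U₂ᴴ) - U₂ * B * U₂ᴴ * (U₂ * A * U₂ᴴ) =
        U₂ * (A * B - B * A) * U₂ᴴ := by
      have f1 : U₂ * A * U₂ᴴ * (U₂ * B * U₂ᴴ) = U₂ * (A * B) * U₂ᴴ := by
        calc _ = U₂ * A * (U₂ᴴ * U₂) * B * U₂ᴴ := by simp only [mul_assoc]
          _ = _ := by rw [h₂', mul_one]; simp only [mul_assoc]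
      have f2 : U₂ * B * U₂ᴴ * (U₂ * A * U₂ᴴ) = U₂ * (B * A) * U₂ᴴ := by
        calc _ = U₂ * B * (U₂ᴴ * U₂) * A * U₂ᴴ := by simp only [mul_assoc]
          _ = _ := by rw [h₂', mul_one]; simp only [mul_assoc]
      rw [f1, f2, mul_sub, sub_mul]
    rw [e1] at e
    calc U₂ᴴ * U₃ * (A * B - B * A)
        = U₂ᴴ * (U₃ * (A * B - B * A) * U₃ᴴ) * U₃ := by
          calc U₂ᴴ * U₃ * (A * B - B * A) = U₂ᴴ * U₃ * (A * B - B * A) * (U₃ᴴ * U₃) := by
                rw [h₃', mul_one]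
            _ = _ := by simp only [mul_assoc]
      _ = U₂ᴴ * (-(U₂ * (A * B - B * A) * U₂ᴴ)) * U₃ := by rw [e]
      _ = -((U₂ᴴ * U₂) * (A * B - B * A) * (U₂ᴴ * U₃)) := by
          rw [mul_neg, neg_mul]; simp only [mul_assoc]
      _ = _ := by rw [h₂', one_mul]
  have h2I : (2 * I : ℂ) ≠ 0 := by simp
  have cancel : ∀ A : Matrix (Fin 2) (Fin 2) ℂ,
      (U₂ᴴ * U₃) * ((2 * I) • A) = -(((2 * I) • A) * (U₂ᴴ * U₃)) →
      (U₂ᴴ * U₃) * A = -(A * (U₂ᴴ * U₃)) := by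
    intro A h
    rw [mul_smul_comm, smul_mul_assoc, ← smul_neg] at h
    exact smul_right_injective _ h2I h
  have g1 := E2 X Y
  have g2 := E2 Y Z
  have g3 := E2 Z X
  rw [XY] at g1
  rw [YZ] at g2
  rw [ZX] at g3
  have hV := eq_zero_of_anticomm (cancel _ g2) (cancel _ g3) (cancel _ g1)
  have h1 : (1 : Matrix (Fin 2) (Fin 2) ℂ) = 0 := by
    calc (1 : Matrix (Fin 2) (Fin 2) ℂ) = U₂ * (U₂ᴴ * U₃) * U₃ᴴ := by
          calc (1 : Matrix (Fin 2) (Fin 2) ℂ) = (U₂ * U₂ᴴ) * (U₃ * U₃ᴴ) := by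
                rw [h₂, h₃, one_mul]
            _ = _ := by simp only [mul_assoc]
      _ = 0 := by rw [hV, mul_zero, zero_mul]
  exact one_ne_zero h1

/-! ### Witness property -/

theorem bloch {ρ : Matrix (Fin 2) (Fin 2) ℂ} (h : IsState ρ) :
    ∃ x y z : ℝ, x ^ 2 + y ^ 2 + z ^ 2 ≤ 1 ∧ (ρ * X).trace = x ∧ (ρ * Y).trace = y ∧
      (ρ * Z).trace = z := by
  obtain ⟨hp, ht⟩ := h
  have hH := hp.1
  have h00 : (ρ 0 0).im = 0 := by
    have := congrArg Complex.im (hH.apply 0 0)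
    simp at this
    linarith
  have h11 : (ρ 1 1).im = 0 := by
    have := congrArg Complex.im (hH.apply 1 1)
    simp at this
    linarith
  have h10re : (ρ 1 0).re = (ρ 0 1).re := by
    have := congrArg Complex.re (hH.apply 0 1)
    simpa using this
  have h10im : (ρ 1 0).im = -(ρ 0 1).im := by
    have := congrArg Complex.im (hH.apply 0 1)
    simp at this
    linarith
  have htr : (ρ 0 0).re + (ρ 1 1).re = 1 := by
    have := congrArg Complex.re ht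
    simpa [Matrix.trace_fin_two] using this
  have hdet : 0 ≤ (ρ 0 0).re * (ρ 1 1).re - ((ρ 0 1).re ^ 2 + (ρ 0 1).im ^ 2) := by
    have h1 := hp.det_nonneg
    rw [Complex.le_def] at h1
    have h2 := h1.1
    rw [Matrix.det_fin_two] at h2
    simp only [Complex.zero_re, Complex.sub_re, Complex.mul_re] at h2
    rw [h00, h11, h10re, h10im] at h2
    nlinarith
  refine ⟨2 * (ρ 0 1).re, -2 * (ρ 0 1).im, (ρ 0 0).re - (ρ 1 1).re, ?_, ?_, ?_, ?_⟩
  · nlinarith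
  · apply Complex.ext
    · simp [X, Matrix.trace_fin_two, Matrix.mul_apply, Fin.sum_univ_two, h10re]; ring
    · simp [X, Matrix.trace_fin_two, Matrix.mul_apply, Fin.sum_univ_two, h10im]
  · apply Complex.ext
    · simp [Y, Matrix.trace_fin_two, Matrix.mul_apply, Fin.sum_univ_two, h10im]; ring
    · simp [Y, Matrix.trace_fin_two, Matrix.mul_apply, Fin.sum_univ_two, h10re]
  · apply Complex.ext
    · simp [Z, Matrix.trace_fin_two, Matrix.mul_apply, Fin.sum_univ_two]; ring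
    · simp [Z, Matrix.trace_fin_two, Matrix.mul_apply, Fin.sum_univ_two, h00, h11]

theorem det_bound {a b c x y z u v w : ℝ} (h1 : a ^ 2 + b ^ 2 + c ^ 2 ≤ 1)
    (h2 : x ^ 2 + y ^ 2 + z ^ 2 ≤ 1) (h3 : u ^ 2 + v ^ 2 + w ^ 2 ≤ 1) :
    |a * y * w + b * z * u + c * x * v - a * z * v - c * y * u - b * x * w| ≤ 1 := by
  have e1 : (y * w - z * v) ^ 2 + (z * u - x * w) ^ 2 + (x * v - y * u) ^ 2 ≤ 1 := by
    have : (y * w - z * v) ^ 2 + (z * u - x * w) ^ 2 + (x * v - y * u) ^ 2 =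
        (x ^ 2 + y ^ 2 + z ^ 2) * (u ^ 2 + v ^ 2 + w ^ 2) - (x * u + y * v + z * w) ^ 2 := by ring
    rw [this]
    have h4 : (x ^ 2 + y ^ 2 + z ^ 2) * (u ^ 2 + v ^ 2 + w ^ 2) ≤ 1 * 1 :=
      mul_le_mul h2 h3 (by positivity) (by norm_num)
    nlinarith [sq_nonneg (x * u + y * v + z * w)]
  set p := y * w - z * v with hp
  set q := z * u - x * w with hq
  set r := x * v - y * u with hr
  have e2 : (a * p + b * q + c * r) ^ 2 ≤ 1 := by
    have : (a * p + b * q + c * r) ^ 2 =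
        (a ^ 2 + b ^ 2 + c ^ 2) * (p ^ 2 + q ^ 2 + r ^ 2) -
          ((a * q - b * p) ^ 2 + (a * r - c * p) ^ 2 + (b * r - c * q) ^ 2) := by ring
    rw [this]
    have h4 : (a ^ 2 + b ^ 2 + c ^ 2) * (p ^ 2 + q ^ 2 + r ^ 2) ≤ 1 * 1 :=
      mul_le_mul h1 e1 (by positivity) (by norm_num)
    nlinarith [sq_nonneg (a * q - b * p), sq_nonneg (a * r - c * p), sq_nonneg (b * r - c * q)]
  have e3 : a * y * w + b * z * u + c * x * v - a * z * v - c * y * u - b * x * w =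
      a * p + b * q + c * r := by rw [hp, hq, hr]; ring
  rw [e3]
  exact abs_le_one_iff_mul_self_le_one.2 (by nlinarith)

theorem prod_state_O {ρ : (i : Fin 3) → Matrix (Fin (d3 i)) (Fin (d3 i)) ℂ}
    (h : ∀ i, IsState (ρ i)) :
    ∃ t : ℝ, |t| ≤ 1 ∧ (O * prodOp ρ).trace = t := by
  have e : prodOp ρ = T (ρ 0) (ρ 1) (ρ 2) := by
    unfold T
    congr 1
    funext i
    fin_cases i <;> rfl
  obtain ⟨a, b, c, h0, ha, hb, hc⟩ := bloch (h 0)
  obtain ⟨x, y, z, h1, hx, hy, hz⟩ := bloch (h 1)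
  obtain ⟨u, v, w, h2, hu, hv, hw⟩ := bloch (h 2)
  refine ⟨_, det_bound h0 h1 h2, ?_⟩
  rw [Matrix.trace_mul_comm, e, trace_T_O, ha, hb, hc, hx, hy, hz, hu, hv, hw]
  push_cast
  ring

theorem sep_nonneg {s : ℝ} (hs : |s| ≤ 1) : ∀ σ ∈ Sep d3, 0 ≤ ((1 + (s : ℂ) • O) * σ).trace.re := by
  intro σ hσ
  have hconv : Convex ℝ {σ : Matrix (Idx d3) (Idx d3) ℂ | 0 ≤ ((1 + (s : ℂ) • O) * σ).trace.re} := by
    intro x hx y hy a b ha hb _
    simp only [Set.mem_ofPred_eq] at hx hy ⊢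
    rw [mul_add, Matrix.trace_add, mul_smul_comm, mul_smul_comm, Matrix.trace_smul,
      Matrix.trace_smul, Complex.add_re, Complex.smul_re, Complex.smul_re]
    exact add_nonneg (mul_nonneg ha hx) (mul_nonneg hb hy)
  refine convexHull_min ?_ hconv hσ
  rintro _ ⟨ρ, hρ, rfl⟩
  obtain ⟨t, ht, htO⟩ := prod_state_O hρ
  simp only [Set.mem_ofPred_eq]
  rw [add_mul, one_mul, smul_mul_assoc, Matrix.trace_add, Matrix.trace_smul, htO, trace_prodOp]
  rw [Finset.prod_congr rfl (fun i _ => (hρ i).2)]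
  simp only [Finset.prod_const_one, smul_eq_mul, Complex.add_re, Complex.one_re]
  rw [← Complex.ofReal_mul, Complex.ofReal_re]
  have h1 : |s * t| ≤ 1 := by
    rw [abs_mul]
    calc |s| * |t| ≤ 1 * 1 := mul_le_mul hs ht (abs_nonneg _) (by norm_num)
      _ = 1 := by norm_num
  linarith [neg_abs_le (s * t)]

/-- A vector whose projector detects the witnesses. -/
def R (s : ℝ) : Matrix (Idx d3) (Idx d3) ℂ :=
  T !![1, 0; 0, 0] !![1, 0; 0, 0] !![0, 0; 1, 0] +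
    ((s : ℂ) * I) • T !![1, 0; 0, 0] !![0, 0; 1, 0] !![1, 0; 0, 0] -
    T !![0, 0; 1, 0] !![1, 0; 0, 0] !![1, 0; 0, 0]

theorem E00H : (!![1, 0; 0, 0] : Matrix (Fin 2) (Fin 2) ℂ)ᴴ = !![1, 0; 0, 0] := by
  ext i j; fin_cases i <;> fin_cases j <;> simp [Matrix.conjTranspose_apply]

theorem E10H : (!![0, 0; 1, 0] : Matrix (Fin 2) (Fin 2) ℂ)ᴴ = !![0, 1; 0, 0] := by
  ext i j; fin_cases i <;> fin_cases j <;> simp [Matrix.conjTranspose_apply]

theorem R_trace {s : ℝ} (hs : s ^ 2 = 1) : (R s * (R s)ᴴ).trace = 3 := by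
  unfold R
  simp only [Matrix.conjTranspose_add, Matrix.conjTranspose_sub, Matrix.conjTranspose_smul,
    T_conjTranspose, E00H, E10H, add_mul, mul_add, sub_mul, mul_sub, smul_mul_assoc, mul_smul_comm,
    T_mul, Matrix.trace_add, Matrix.trace_sub, Matrix.trace_smul, T_trace]
  simp [Matrix.trace_fin_two, Matrix.mul_apply, Fin.sum_univ_two]
  have hs' : (s : ℂ) ^ 2 = 1 := by exact_mod_cast hs
  ring_nf
  simp [hs']
  norm_num

theorem R_trace_O (s : ℝ) : (R s * (R s)ᴴ * O).trace = -(8 * s) := by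
  unfold R
  simp only [Matrix.conjTranspose_add, Matrix.conjTranspose_sub, Matrix.conjTranspose_smul,
    T_conjTranspose, E00H, E10H, add_mul, mul_add, sub_mul, mul_sub, smul_mul_assoc, mul_smul_comm,
    T_mul, Matrix.trace_add, Matrix.trace_sub, Matrix.trace_smul, trace_T_O']
  simp [Matrix.trace_fin_two]
  ring_nf
  simp

theorem isEW {s : ℝ} (hs : s ^ 2 = 1) : IsEW (1 + (s : ℂ) • O) := by
  have hs' : (s : ℂ) ^ 2 = 1 := by exact_mod_cast hs
  refine ⟨?_, sep_nonneg (by rw [abs_le_one_iff_mul_self_le_one]; nlinarith), ?_⟩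
  · unfold Matrix.IsHermitian
    rw [Matrix.conjTranspose_add, Matrix.conjTranspose_smul, O_H, Matrix.conjTranspose_one]
    simp
  · refine ⟨((1 / 3 : ℝ) : ℂ) • (R s * (R s)ᴴ), ⟨?_, ?_⟩, ?_⟩
    · refine (Matrix.posSemidef_self_mul_conjTranspose _).smul ?_
      rw [Complex.le_def]
      simp
    · rw [Matrix.trace_smul, R_trace hs]
      simp
    · rw [mul_smul_comm, Matrix.trace_smul, add_mul, one_mul, smul_mul_assoc, Matrix.trace_add,
        Matrix.trace_smul, R_trace hs, Matrix.trace_mul_comm O, R_trace_O]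
      have : ((1 / 3 : ℝ) : ℂ) • ((3 : ℂ) + (s : ℂ) • (-(8 * (s : ℂ)))) = ((-5 / 3 : ℝ) : ℂ) := by
        simp only [smul_eq_mul]
        push_cast
        linear_combination (-8 / 3) * hs'
      rw [this, Complex.ofReal_re]
      norm_num

/-! ### Optimality -/

/-- Product vectors. -/
def pv (x y z : Fin 2 → ℂ) : Idx d3 → ℂ := fun a => x (a 0) * y (a 1) * z (a 2)

/-- Rank one operators. -/
def vv (x : Fin 2 → ℂ) : Matrix (Fin 2) (Fin 2) ℂ := Matrix.vecMulVec x (star x)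

theorem T_vv (x y z : Fin 2 → ℂ) :
    T (vv x) (vv y) (vv z) = Matrix.vecMulVec (pv x y z) (star (pv x y z)) := by
  ext a b
  simp only [T, prodOp, Matrix.of_apply, Fin.prod_univ_three, Matrix.vecMulVec_apply, pv, vv,
    Pi.star_apply, star_mul']
  change (x (a 0) * star (x (b 0))) * (y (a 1) * star (y (b 1))) * (z (a 2) * star (z (b 2))) = _
  ring

theorem T_smul (a b c : ℂ) (A B C : Matrix (Fin 2) (Fin 2) ℂ) :
    T (a • A) (b • B) (c • C) = (a * b * c) • T A B C := by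
  ext i j
  simp only [T, prodOp, Matrix.of_apply, Fin.prod_univ_three, Matrix.smul_apply, smul_eq_mul]
  change (a * A (i 0) (j 0)) * (b * B (i 1) (j 1)) * (c * C (i 2) (j 2)) = a * b * c *
    (A (i 0) (j 0) * B (i 1) (j 1) * C (i 2) (j 2))
  ring

theorem trace_mul_vecMulVec {ι : Type} [Fintype ι] (P : Matrix ι ι ℂ) (e : ι → ℂ) :
    (P * Matrix.vecMulVec e (star e)).trace = star e ⬝ᵥ (P *ᵥ e) := by
  simp only [Matrix.trace, Matrix.diag_apply, Matrix.mul_apply, Matrix.vecMulVec_apply,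
    dotProduct, Matrix.mulVec, Finset.mul_sum]
  refine Finset.sum_congr rfl fun a _ => Finset.sum_congr rfl fun b _ => ?_
  ring

theorem zero_lemma {s ε : ℝ} (hε : 0 < ε) {P : Matrix (Idx d3) (Idx d3) ℂ} (hP : P.PosSemidef)
    (hW : IsEW (1 + (s : ℂ) • O - (ε : ℂ) • P)) {x y z : Fin 2 → ℂ} {tx ty tz : ℝ}
    (hx : (vv x).trace = tx) (hy : (vv y).trace = ty) (hz : (vv z).trace = tz)
    (htx : 0 < tx) (hty : 0 < ty) (htz : 0 < tz)
    (h0 : ((1 + (s : ℂ) • O) * T (vv x) (vv y) (vv z)).trace = 0) : P *ᵥ pv x y z = 0 := by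
  rw [← hP.dotProduct_mulVec_zero_iff]
  have hst : ∀ (v : Fin 2 → ℂ) (t : ℝ), 0 < t → (vv v).trace = t →
      IsState (((t⁻¹ : ℝ) : ℂ) • vv v) := by
    intro v t ht hv
    refine ⟨(Matrix.posSemidef_vecMulVec_self_star v).smul ?_, ?_⟩
    · rw [Complex.le_def]
      simp [ht.le]
    · rw [Matrix.trace_smul, hv, smul_eq_mul, ← Complex.ofReal_mul, inv_mul_cancel₀ ht.ne',
        Complex.ofReal_one]
  have hmem : T (((tx⁻¹ : ℝ) : ℂ) • vv x) (((ty⁻¹ : ℝ) : ℂ) • vv y) (((tz⁻¹ : ℝ) : ℂ) • vv z) ∈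
      Sep d3 := by
    refine subset_convexHull ℝ _ ⟨_, ?_, rfl⟩
    intro i
    fin_cases i
    · exact hst x tx htx hx
    · exact hst y ty hty hy
    · exact hst z tz htz hz
  have hT : T (((tx⁻¹ : ℝ) : ℂ) • vv x) (((ty⁻¹ : ℝ) : ℂ) • vv y) (((tz⁻¹ : ℝ) : ℂ) • vv z) =
      (((tx⁻¹ * ty⁻¹ * tz⁻¹ : ℝ)) : ℂ) • T (vv x) (vv y) (vv z) := by
    rw [T_smul, Complex.ofReal_mul, Complex.ofReal_mul]
  have h1 := hW.2.1 _ hmem
  rw [hT, mul_smul_comm, Matrix.trace_smul, sub_mul, Matrix.trace_sub, h0, zero_sub,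
    smul_mul_assoc, Matrix.trace_smul, T_vv, trace_mul_vecMulVec] at h1
  have h2 := hP.dotProduct_mulVec_nonneg (pv x y z)
  rw [Complex.le_def] at h2
  simp only [Complex.zero_re, Complex.zero_im] at h2
  set w : ℂ := star (pv x y z) ⬝ᵥ (P *ᵥ pv x y z) with hw
  have h3 : (((tx⁻¹ * ty⁻¹ * tz⁻¹ : ℝ) : ℂ) • -((ε : ℂ) • w)).re =
      -(tx⁻¹ * ty⁻¹ * tz⁻¹ * ε * w.re) := by
    rw [smul_eq_mul, smul_eq_mul, Complex.re_ofReal_mul, Complex.neg_re, Complex.re_ofReal_mul]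
    ring
  rw [h3] at h1
  have h4 : 0 < tx⁻¹ * ty⁻¹ * tz⁻¹ * ε := by positivity
  have h5 : w.re = 0 := by
    have : w.re ≤ 0 := by
      by_contra hneg
      push Not at hneg
      have := mul_pos h4 hneg
      linarith
    exact le_antisymm this h2.1
  exact Complex.ext h5 h2.2.symm

/-- The data of a rank one operator. -/
structure Tr4 (v : Fin 2 → ℂ) (t x y z : ℝ) : Prop where
  ht : (vv v).trace = t
  hx : (vv v * X).trace = x
  hy : (vv v * Y).trace = y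
  hz : (vv v * Z).trace = z

theorem fact {s ε : ℝ} (hε : 0 < ε) {P : Matrix (Idx d3) (Idx d3) ℂ} (hP : P.PosSemidef)
    (hW : IsEW (1 + (s : ℂ) • O - (ε : ℂ) • P)) {v₁ v₂ v₃ : Fin 2 → ℂ}
    {t₁ x₁ y₁ z₁ t₂ x₂ y₂ z₂ t₃ x₃ y₃ z₃ : ℝ}
    (h₁ : Tr4 v₁ t₁ x₁ y₁ z₁) (h₂ : Tr4 v₂ t₂ x₂ y₂ z₂) (h₃ : Tr4 v₃ t₃ x₃ y₃ z₃)
    (p₁ : 0 < t₁) (p₂ : 0 < t₂) (p₃ : 0 < t₃)
    (h : t₁ * t₂ * t₃ + s * (x₁ * y₂ * z₃ + y₁ * z₂ * x₃ + z₁ * x₂ * y₃ - x₁ * z₂ * y₃ -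
      z₁ * y₂ * x₃ - y₁ * x₂ * z₃) = 0) : P *ᵥ pv v₁ v₂ v₃ = 0 := by
  refine zero_lemma hε hP hW h₁.ht h₂.ht h₃.ht p₁ p₂ p₃ ?_
  rw [add_mul, one_mul, smul_mul_assoc, Matrix.trace_add, Matrix.trace_smul, T_trace,
    Matrix.trace_mul_comm, trace_T_O, h₁.ht, h₂.ht, h₃.ht, h₁.hx, h₂.hx, h₃.hx, h₁.hy, h₂.hy,
    h₃.hy, h₁.hz, h₂.hz, h₃.hz, smul_eq_mul]
  exact_mod_cast h

/-- Eigenvectors of the Pauli matrices. -/
def xs (a : ℝ) : Fin 2 → ℂ := ![1, (a : ℂ)]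
def ys (b : ℝ) : Fin 2 → ℂ := ![1, (b : ℂ) * I]
def zs (c : ℝ) : Fin 2 → ℂ := ![1 + (c : ℂ), 1 - (c : ℂ)]

theorem xs_tr {a : ℝ} (h : a ^ 2 = 1) : Tr4 (xs a) 2 (2 * a) 0 0 := by
  have h' : (a : ℂ) ^ 2 = 1 := by exact_mod_cast h
  constructor
  · simp [vv, xs, Matrix.trace_fin_two, Matrix.vecMulVec_apply]
    linear_combination h'
  · simp [vv, xs, Matrix.trace_fin_two, Matrix.vecMulVec_apply, X, Matrix.mul_apply,
      Fin.sum_univ_two]
    ring
  · simp [vv, xs, Matrix.trace_fin_two, Matrix.vecMulVec_apply, Y, Matrix.mul_apply,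
      Fin.sum_univ_two]
  · simp [vv, xs, Matrix.trace_fin_two, Matrix.vecMulVec_apply, Z, Matrix.mul_apply,
      Fin.sum_univ_two]
    linear_combination -h'

theorem ys_tr {b : ℝ} (h : b ^ 2 = 1) : Tr4 (ys b) 2 0 (2 * b) 0 := by
  have h' : (b : ℂ) ^ 2 = 1 := by exact_mod_cast h
  have hI := I_sq
  constructor
  · simp [vv, ys, Matrix.trace_fin_two, Matrix.vecMulVec_apply]
    linear_combination h' - (b : ℂ) ^ 2 * hI
  · simp [vv, ys, Matrix.trace_fin_two, Matrix.vecMulVec_apply, X, Matrix.mul_apply,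
      Fin.sum_univ_two]
  · simp [vv, ys, Matrix.trace_fin_two, Matrix.vecMulVec_apply, Y, Matrix.mul_apply,
      Fin.sum_univ_two]
    linear_combination (-2 * (b : ℂ)) * hI
  · simp [vv, ys, Matrix.trace_fin_two, Matrix.vecMulVec_apply, Z, Matrix.mul_apply,
      Fin.sum_univ_two]
    linear_combination -h' + (b : ℂ) ^ 2 * hI

theorem zs_tr {c : ℝ} (h : c ^ 2 = 1) : Tr4 (zs c) 4 0 0 (4 * c) := by
  have h' : (c : ℂ) ^ 2 = 1 := by exact_mod_cast h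
  constructor
  · simp [vv, zs, Matrix.trace_fin_two, Matrix.vecMulVec_apply]
    linear_combination 2 * h'
  · simp [vv, zs, Matrix.trace_fin_two, Matrix.vecMulVec_apply, X, Matrix.mul_apply,
      Fin.sum_univ_two]
    linear_combination (-2) * h'
  · simp [vv, zs, Matrix.trace_fin_two, Matrix.vecMulVec_apply, Y, Matrix.mul_apply,
      Fin.sum_univ_two]
    ring
  · simp [vv, zs, Matrix.trace_fin_two, Matrix.vecMulVec_apply, Z, Matrix.mul_apply,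
      Fin.sum_univ_two]
    ring

/-- Basis labels. -/
def bv (i j k : Fin 2) : Idx d3 := ![i, j, k]

/-- Sums over the product basis of three qubits. -/
def eq3 : (Fin 2 × Fin 2 × Fin 2) ≃ Idx d3 where
  toFun p := bv p.1 p.2.1 p.2.2
  invFun a := (a 0, a 1, a 2)
  left_inv p := rfl
  right_inv a := by
    funext i
    fin_cases i <;> rfl

theorem sum3 (f : Idx d3 → ℂ) :
    ∑ a, f a = f (bv 0 0 0) + f (bv 0 0 1) + f (bv 0 1 0) + f (bv 0 1 1) +
      f (bv 1 0 0) + f (bv 1 0 1) + f (bv 1 1 0) + f (bv 1 1 1) := by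
  rw [← Equiv.sum_comp eq3, Fintype.sum_prod_type]
  simp only [Fintype.sum_prod_type, Fin.sum_univ_two]
  change (f (bv 0 0 0) + f (bv 0 0 1)) + (f (bv 0 1 0) + f (bv 0 1 1)) +
    ((f (bv 1 0 0) + f (bv 1 0 1)) + (f (bv 1 1 0) + f (bv 1 1 1))) = _
  ring

theorem row_eq {P : Matrix (Idx d3) (Idx d3) ℂ} {x y z : Fin 2 → ℂ} (h : P *ᵥ pv x y z = 0)
    (r : Idx d3) :
    P r (bv 0 0 0) * (x 0 * y 0 * z 0) + P r (bv 0 0 1) * (x 0 * y 0 * z 1) +
    P r (bv 0 1 0) * (x 0 * y 1 * z 0) + P r (bv 0 1 1) * (x 0 * y 1 * z 1) +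
    P r (bv 1 0 0) * (x 1 * y 0 * z 0) + P r (bv 1 0 1) * (x 1 * y 0 * z 1) +
    P r (bv 1 1 0) * (x 1 * y 1 * z 0) + P r (bv 1 1 1) * (x 1 * y 1 * z 1) = 0 := by
  have := congrFun h r
  simp only [Matrix.mulVec, dotProduct, Pi.zero_apply] at this
  rw [sum3] at this
  exact this

theorem P_rows {s ε : ℝ} (hs : s ^ 2 = 1) (hε : 0 < ε) {P : Matrix (Idx d3) (Idx d3) ℂ}
    (hP : P.PosSemidef) (hW : IsEW (1 + (s : ℂ) • O - (ε : ℂ) • P)) (r : Idx d3) (c : ℝ)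
    (hc : c ^ 2 = 1) :
    (P r (bv 0 0 0) * (1 + c) + P r (bv 0 0 1) * (1 - c) = 0 ∧
     P r (bv 1 1 0) * (1 + c) + P r (bv 1 1 1) * (1 - c) = 0) ∧
    (P r (bv 0 0 0) * (1 + c) + P r (bv 1 0 0) * (1 - c) = 0 ∧
     P r (bv 0 1 1) * (1 + c) + P r (bv 1 1 1) * (1 - c) = 0) ∧
    (P r (bv 0 0 0) * (1 + c) + P r (bv 0 1 0) * (1 - c) = 0 ∧
     P r (bv 1 0 1) * (1 + c) + P r (bv 1 1 1) * (1 - c) = 0) := by
  have hs' : (s : ℂ) ^ 2 = 1 := by exact_mod_cast hs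
  have hc' : (c : ℂ) ^ 2 = 1 := by exact_mod_cast hc
  have hI := I_sq
  have hcs : (c * s) ^ 2 = 1 := by rw [mul_pow, hc, hs, one_mul]
  have hcs' : (-(c * s)) ^ 2 = 1 := by rw [neg_sq, hcs]
  have hcs2 : (c : ℂ) ^ 2 * s ^ 2 = 1 := by rw [hc', hs', one_mul]
  have one2 : (1 : ℝ) ^ 2 = 1 := by norm_num
  have mone2 : (-1 : ℝ) ^ 2 = 1 := by norm_num
  have p4 : (0 : ℝ) < 4 := by norm_num
  -- third position
  have a1 := row_eq (fact hε hP hW (xs_tr one2) (ys_tr hcs')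
    (zs_tr hc) two_pos two_pos p4 (by linear_combination (-16) * hcs)) r
  have a2 := row_eq (fact hε hP hW (xs_tr mone2) (ys_tr hcs)
    (zs_tr hc) two_pos two_pos p4 (by linear_combination (-16) * hcs)) r
  have a3 := row_eq (fact hε hP hW (ys_tr hcs) (xs_tr one2)
    (zs_tr hc) two_pos two_pos p4 (by linear_combination (-16) * hcs)) r
  have a4 := row_eq (fact hε hP hW (ys_tr hcs') (xs_tr mone2)
    (zs_tr hc) two_pos two_pos p4 (by linear_combination (-16) * hcs)) r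
  -- first position
  have b1 := row_eq (fact hε hP hW (zs_tr hc) (xs_tr one2) (ys_tr hcs')
    p4 two_pos two_pos (by linear_combination (-16) * hcs)) r
  have b2 := row_eq (fact hε hP hW (zs_tr hc) (xs_tr mone2) (ys_tr hcs)
    p4 two_pos two_pos (by linear_combination (-16) * hcs)) r
  have b3 := row_eq (fact hε hP hW (zs_tr hc) (ys_tr hcs) (xs_tr one2)
    p4 two_pos two_pos (by linear_combination (-16) * hcs)) r
  have b4 := row_eq (fact hε hP hW (zs_tr hc) (ys_tr hcs') (xs_tr mone2)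
    p4 two_pos two_pos (by linear_combination (-16) * hcs)) r
  -- second position
  have c1 := row_eq (fact hε hP hW (ys_tr hcs') (zs_tr hc) (xs_tr one2)
    two_pos p4 two_pos (by linear_combination (-16) * hcs)) r
  have c2 := row_eq (fact hε hP hW (ys_tr hcs) (zs_tr hc) (xs_tr mone2)
    two_pos p4 two_pos (by linear_combination (-16) * hcs)) r
  have c3 := row_eq (fact hε hP hW (xs_tr one2) (zs_tr hc) (ys_tr hcs)
    two_pos p4 two_pos (by linear_combination (-16) * hcs)) r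
  have c4 := row_eq (fact hε hP hW (xs_tr mone2) (zs_tr hc) (ys_tr hcs')
    two_pos p4 two_pos (by linear_combination (-16) * hcs)) r
  simp only [xs, ys, zs, Matrix.cons_val_zero, Matrix.cons_val_one, Matrix.cons_val_fin_one]
    at a1 a2 a3 a4 b1 b2 b3 b4 c1 c2 c3 c4
  push_cast at a1 a2 a3 a4 b1 b2 b3 b4 c1 c2 c3 c4
  refine ⟨⟨?_, ?_⟩, ⟨?_, ?_⟩, ⟨?_, ?_⟩⟩
  · linear_combination (1 / 4) * (a1 + a2 + a3 + a4)
  · linear_combination (-(I * c * s) / 4) * (a3 + a4 - a1 - a2) +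
      ((c : ℂ) ^ 2 * s ^ 2 * (P r (bv 1 1 0) * (1 + c) + P r (bv 1 1 1) * (1 - c))) * hI -
      (P r (bv 1 1 0) * (1 + c) + P r (bv 1 1 1) * (1 - c)) * hcs2
  · linear_combination (1 / 4) * (b1 + b2 + b3 + b4)
  · linear_combination (-(I * c * s) / 4) * (b3 + b4 - b1 - b2) +
      ((c : ℂ) ^ 2 * s ^ 2 * (P r (bv 0 1 1) * (1 + c) + P r (bv 1 1 1) * (1 - c))) * hI -
      (P r (bv 0 1 1) * (1 + c) + P r (bv 1 1 1) * (1 - c)) * hcs2
  · linear_combination (1 / 4) * (c1 + c2 + c3 + c4)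
  · linear_combination (-(I * c * s) / 4) * (c3 + c4 - c1 - c2) +
      ((c : ℂ) ^ 2 * s ^ 2 * (P r (bv 1 0 1) * (1 + c) + P r (bv 1 1 1) * (1 - c))) * hI -
      (P r (bv 1 0 1) * (1 + c) + P r (bv 1 1 1) * (1 - c)) * hcs2

theorem P_zero {s ε : ℝ} (hs : s ^ 2 = 1) (hε : 0 < ε) {P : Matrix (Idx d3) (Idx d3) ℂ}
    (hP : P.PosSemidef) (hW : IsEW (1 + (s : ℂ) • O - (ε : ℂ) • P)) : P = 0 := by
  ext r b
  obtain ⟨⟨a1, a2⟩, ⟨a3, a4⟩, ⟨a5, a6⟩⟩ := P_rows hs hε hP hW r 1 (by norm_num)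
  obtain ⟨⟨b1, b2⟩, ⟨b3, b4⟩, ⟨b5, b6⟩⟩ := P_rows hs hε hP hW r (-1) (by norm_num)
  push_cast at a1 a2 a3 a4 a5 a6 b1 b2 b3 b4 b5 b6
  have e000 : P r (bv 0 0 0) = 0 := by linear_combination (1 / 2) * a1
  have e001 : P r (bv 0 0 1) = 0 := by linear_combination (1 / 2) * b1
  have e010 : P r (bv 0 1 0) = 0 := by linear_combination (1 / 2) * b5
  have e011 : P r (bv 0 1 1) = 0 := by linear_combination (1 / 2) * a4
  have e100 : P r (bv 1 0 0) = 0 := by linear_combination (1 / 2) * b3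
  have e101 : P r (bv 1 0 1) = 0 := by linear_combination (1 / 2) * a6
  have e110 : P r (bv 1 1 0) = 0 := by linear_combination (1 / 2) * a2
  have e111 : P r (bv 1 1 1) = 0 := by linear_combination (1 / 2) * b2
  have hb : b = bv (b 0) (b 1) (b 2) := (eq3.right_inv b).symm
  rw [hb]
  generalize b 0 = i
  generalize b 1 = j
  generalize b 2 = k
  fin_cases i <;> fin_cases j <;> fin_cases k <;> assumption

theorem isOptimalEW {s : ℝ} (hs : s ^ 2 = 1) : IsOptimalEW (1 + (s : ℂ) • O) := by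
  refine ⟨isEW hs, ?_⟩
  rintro ⟨ε, P, hε, hP0, hP, hW⟩
  exact hP0 (P_zero hs hε hP hW)

/-- **A mirrored pair of optimal entanglement witnesses not related by local unitaries.** There
are a multipartite system, and optimal entanglement witnesses `W`, `M` on it whose sum is a real
multiple of the identity, such that `W` and `M` are not related by local unitaries. -/
theorem result : ∃ (n : ℕ) (d : Fin n → ℕ) (W M : Matrix (Idx d) (Idx d) ℂ), 2 ≤ n ∧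
    (∀ i, 2 ≤ d i) ∧ IsOptimalEW W ∧ IsOptimalEW M ∧ (∃ u : ℝ, W + M = (u : ℂ) • 1) ∧
    ¬ LocallyUnitarilyRelated W M := by
  refine ⟨3, d3, 1 + ((1 : ℝ) : ℂ) • O, 1 + ((-1 : ℝ) : ℂ) • O, by norm_num, fun _ => le_rfl,
    isOptimalEW (by norm_num), isOptimalEW (by norm_num), ⟨2, ?_⟩, ?_⟩
  · push_cast
    rw [one_smul, neg_smul, one_smul, two_smul]
    abel
  · rintro ⟨U, hU, h⟩
    have hU1 : ∀ i, U i * (U i)ᴴ = 1 := fun i => Matrix.mem_unitaryGroup_iff.1 (hU i)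
    have hU2 : ∀ i, (U i)ᴴ * U i = 1 := fun i => Matrix.mem_unitaryGroup_iff'.1 (hU i)
    have e : prodOp U = T (U 0) (U 1) (U 2) := by
      unfold T
      congr 1
      funext i
      fin_cases i <;> rfl
    rw [e] at h
    have h1 : T (U 0) (U 1) (U 2) * (T (U 0) (U 1) (U 2))ᴴ = 1 := by
      rw [T_conjTranspose, T_mul]
      rw [hU1 0, hU1 1, hU1 2]
      exact T_one
    push_cast at h
    rw [one_smul, neg_smul, one_smul, mul_add, mul_one, add_mul, h1] at h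
    exact not_lu (hU1 0) (hU1 1) (hU1 2) (hU2 0) (hU2 1) (hU2 2) (add_left_cancel h).symm

end Pool.Agent.Results.MP_472e54_mp.MirroredPair
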